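import Pool.Agent.W5h38.SC.Main

/-!
# The cardinalities of the sets given by maximal intersecting families
-/

set_option autoImplicit false

open NumberField Filter Topology Set MeasureTheory Polynomial

namespace Pool.Agent.W5h38.SC

open R130.CF.Ideals

section fam
variable {K : Type} [Field K] [NumberField K]

/-! ### linearity -/

lemma comb_eq_sum (D : ℤ[X]) (n : ℕ) : comb K D n = D.sum fun i a => a * (cnt K (n / 2 ^ i) : ℤ) :=
  rfl

lemma comb_add (D D' : ℤ[X]) (n : ℕ) : comb K (D + D') n = comb K D n + comb K D' n := by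
  simp only [comb_eq_sum]
  exact Polynomial.sum_add_index D D' _ (fun i => zero_mul _) (fun i a b => add_mul _ _ _)

lemma comb_neg (D : ℤ[X]) (n : ℕ) : comb K (-D) n = -comb K D n := by
  have h := comb_add (K := K) D (-D) n
  rw [add_neg_cancel] at h
  have h0 : comb K 0 n = 0 := by
    unfold comb
    simp
  rw [h0] at h
  linarith

lemma comb_sub (D D' : ℤ[X]) (n : ℕ) : comb K (D - D') n = comb K D n - comb K D' n := by
  rw [sub_eq_add_neg, comb_add, comb_neg]
  ring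

lemma comb_zero (n : ℕ) : comb K 0 n = 0 := by
  unfold comb
  simp

lemma comb_finsum {ι : Type*} (s : Finset ι) (D : ι → ℤ[X]) (n : ℕ) :
    comb K (∑ i ∈ s, D i) n = ∑ i ∈ s, comb K (D i) n := by
  classical
  induction s using Finset.induction_on with
  | empty => simp [comb_zero]
  | insert a s ha ih => rw [Finset.sum_insert ha, Finset.sum_insert ha, comb_add, ih]

lemma comb_X_pow (k n : ℕ) : comb K (X ^ k) n = (cnt K (n / 2 ^ k) : ℤ) := by
  rw [comb_eq_sum, X_pow_eq_monomial]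
  exact (Polynomial.sum_monomial_index (1 : ℤ) (fun i a => a * (cnt K (n / 2 ^ i) : ℤ))
    (zero_mul _)).trans (one_mul _)

/-! ### the ideals of a given type -/

lemma P2_prime {𝔭 : Ideal (𝓞 K)} (h : 𝔭 ∈ P2 K) : Prime 𝔭 := by
  refine Ideal.prime_of_isPrime ?_ h.1
  rintro rfl
  have := h.2
  rw [Ideal.absNorm_bot] at this
  omega

/-- the ideals divisible by all members of `S` -/
lemma count_dvd (S : Finset (Ideal (𝓞 K))) (hS : ∀ 𝔭 ∈ S, 𝔭 ∈ P2 K) (n : ℕ) :
    {θ ∈ Theta K n | ∀ 𝔭 ∈ S, 𝔭 ∣ θ}.ncard = cnt K (n / 2 ^ S.card) := by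
  classical
  set Q : Ideal (𝓞 K) := ∏ 𝔭 ∈ S, 𝔭 with hQ
  have hQn : Ideal.absNorm Q = 2 ^ S.card := by
    rw [hQ, map_prod, Finset.prod_congr rfl fun 𝔭 h => (hS 𝔭 h).2, Finset.prod_const]
  have hQ0 : Q ≠ 0 := by
    rw [hQ, Finset.prod_ne_zero_iff]
    exact fun 𝔭 h => (P2_prime (hS 𝔭 h)).ne_zero
  unfold cnt
  rw [← Set.ncard_image_of_injective (Theta K (n / 2 ^ S.card)) (mul_right_injective₀ hQ0)]
  congr 1
  ext θ
  constructor
  · rintro ⟨⟨h1, h2⟩, h3⟩
    obtain ⟨θ', rfl⟩ : Q ∣ θ := Finset.prod_primes_dvd θ (fun 𝔭 h => P2_prime (hS 𝔭 h)) h3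
    refine ⟨θ', ⟨?_, ?_⟩, rfl⟩
    · rintro rfl
      apply h1
      rw [← Ideal.zero_eq_bot, mul_zero]
    · rw [Nat.le_div_iff_mul_le (by positivity), ← hQn, mul_comm, ← map_mul]
      exact h2
  · rintro ⟨θ', ⟨h1, h2⟩, rfl⟩
    refine ⟨⟨?_, ?_⟩, fun 𝔭 h => ?_⟩
    · rw [← Ideal.zero_eq_bot]
      exact mul_ne_zero hQ0 h1
    · show Ideal.absNorm (Q * θ') ≤ n
      rw [map_mul, hQn, mul_comm]
      exact (Nat.le_div_iff_mul_le (by positivity)).1 h2
    · have h4 : 𝔭 ∣ Q := by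
        rw [hQ]
        exact Finset.dvd_prod_of_mem (fun 𝔭 => 𝔭) h
      exact Dvd.dvd.mul_right h4 θ'

/-- the ideals divisible by all members of `S` and by no member of `S'` -/
lemma count_type (S' : Finset (Ideal (𝓞 K))) : ∀ S : Finset (Ideal (𝓞 K)),
    (∀ 𝔭 ∈ S, 𝔭 ∈ P2 K) → (∀ 𝔭 ∈ S', 𝔭 ∈ P2 K) → Disjoint S S' → ∀ n : ℕ,
    (({θ ∈ Theta K n | (∀ 𝔭 ∈ S, 𝔭 ∣ θ) ∧ ∀ 𝔭 ∈ S', ¬ 𝔭 ∣ θ}.ncard : ℕ) : ℤ) =
      comb K (X ^ S.card * (1 - X) ^ S'.card) n := by
  classical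
  induction S' using Finset.induction_on with
  | empty =>
    intro S hS _ _ n
    rw [Finset.card_empty, pow_zero, mul_one, comb_X_pow, ← count_dvd S hS]
    congr 2
    ext θ
    simp
  | insert q S' hq ih =>
    intro S hS hS' hd n
    have hqS : q ∉ S := fun h => (Finset.disjoint_left.1 hd h) (Finset.mem_insert_self _ _)
    have hd1 : Disjoint S S' := hd.mono_right (Finset.subset_insert _ _)
    have hd2 : Disjoint (insert q S) S' := by
      rw [Finset.disjoint_insert_left]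
      exact ⟨hq, hd1⟩
    have hS1 : ∀ 𝔭 ∈ S', 𝔭 ∈ P2 K := fun 𝔭 h => hS' 𝔭 (Finset.mem_insert_of_mem h)
    have hS2 : ∀ 𝔭 ∈ insert q S, 𝔭 ∈ P2 K := by
      intro 𝔭 h
      rcases Finset.mem_insert.1 h with rfl | h
      · exact hS' _ (Finset.mem_insert_self _ _)
      · exact hS 𝔭 h
    have e1 := ih S hS hS1 hd1 n
    have e2 := ih (insert q S) hS2 hS1 hd2 n
    have hsplit : {θ ∈ Theta K n | (∀ 𝔭 ∈ S, 𝔭 ∣ θ) ∧ ∀ 𝔭 ∈ S', ¬ 𝔭 ∣ θ} =
        {θ ∈ Theta K n | (∀ 𝔭 ∈ insert q S, 𝔭 ∣ θ) ∧ ∀ 𝔭 ∈ S', ¬ 𝔭 ∣ θ} ∪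
        {θ ∈ Theta K n | (∀ 𝔭 ∈ S, 𝔭 ∣ θ) ∧ ∀ 𝔭 ∈ insert q S', ¬ 𝔭 ∣ θ} := by
      ext θ
      simp only [Set.mem_ofPred_eq, Set.mem_union, Finset.forall_mem_insert]
      tauto
    have hdisj : Disjoint
        {θ ∈ Theta K n | (∀ 𝔭 ∈ insert q S, 𝔭 ∣ θ) ∧ ∀ 𝔭 ∈ S', ¬ 𝔭 ∣ θ}
        {θ ∈ Theta K n | (∀ 𝔭 ∈ S, 𝔭 ∣ θ) ∧ ∀ 𝔭 ∈ insert q S', ¬ 𝔭 ∣ θ} := by
      rw [Set.disjoint_left]
      rintro θ ⟨_, h1, _⟩ ⟨_, _, h2⟩
      exact h2 q (Finset.mem_insert_self _ _) (h1 q (Finset.mem_insert_self _ _))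
    have hf := theta_finite (K := K) n
    rw [hsplit, Set.ncard_union_eq hdisj (hf.subset fun _ h => h.1) (hf.subset fun _ h => h.1)] at e1
    rw [Finset.card_insert_of_notMem hqS] at e2
    rw [Finset.card_insert_of_notMem hq]
    have e3 : (X : ℤ[X]) ^ S.card * (1 - X) ^ (S'.card + 1) =
        X ^ S.card * (1 - X) ^ S'.card - X ^ (S.card + 1) * (1 - X) ^ S'.card := by
      ring
    rw [e3, comb_sub, ← e1, ← e2]
    push_cast
    ring

/-! ### the families -/

lemma P2_finite : (P2 K).Finite :=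
  (Ideal.finite_setOfPred_absNorm_le 2).subset fun _ h => h.2.le

/-- the prime ideals of norm `2` -/
noncomputable def PF (K : Type) [Field K] [NumberField K] : Finset (Ideal (𝓞 K)) :=
  (P2_finite (K := K)).toFinset

lemma mem_PF {𝔭 : Ideal (𝓞 K)} : 𝔭 ∈ PF K ↔ 𝔭 ∈ P2 K := Set.Finite.mem_toFinset _

lemma coe_PF : (PF K : Set (Ideal (𝓞 K))) = P2 K := Set.Finite.coe_toFinset _

lemma card_PF : (PF K).card = (P2 K).ncard := (Set.ncard_eq_toFinset_card _ _).symm

open Classical in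
/-- the members of a family, as finite sets -/
noncomputable def fs (F : Set (Set (Ideal (𝓞 K)))) : Finset (Finset (Ideal (𝓞 K))) :=
  (PF K).powerset.filter fun S => (S : Set (Ideal (𝓞 K))) ∈ F

lemma mem_fs {F : Set (Set (Ideal (𝓞 K)))} {S : Finset (Ideal (𝓞 K))} :
    S ∈ fs F ↔ S ⊆ PF K ∧ (S : Set (Ideal (𝓞 K))) ∈ F := by
  classical
  unfold fs
  rw [Finset.mem_filter, Finset.mem_powerset]

/-- the number of the members of `F` with `j` elements -/
noncomputable def prof (F : Set (Set (Ideal (𝓞 K)))) (j : ℕ) : ℕ := {S ∈ F | S.ncard = j}.ncard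

lemma prof_eq {F : Set (Set (Ideal (𝓞 K)))} (hF : ∀ S ∈ F, S ⊆ P2 K) (j : ℕ) :
    prof F j = ((fs F).filter fun S => S.card = j).card := by
  classical
  unfold prof
  rw [← Set.ncard_coe_finset, ← Set.ncard_image_of_injective _ Finset.coe_injective]
  congr 1
  ext S
  simp only [Set.mem_ofPred_eq, Set.mem_image, Finset.coe_filter, mem_fs]
  constructor
  · rintro ⟨h1, h2⟩
    have hf := P2_finite.subset (hF S h1)
    refine ⟨hf.toFinset, ⟨⟨?_, ?_⟩, ?_⟩, Set.Finite.coe_toFinset _⟩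
    · intro 𝔭 h
      rw [Set.Finite.mem_toFinset] at h
      exact mem_PF.2 (hF S h1 h)
    · rw [Set.Finite.coe_toFinset]
      exact h1
    · rw [← Set.ncard_eq_toFinset_card _ hf]
      exact h2
  · rintro ⟨T, ⟨⟨h1, h2⟩, h3⟩, rfl⟩
    exact ⟨h2, by rw [Set.ncard_coe_finset]; exact h3⟩

/-- the polynomial of a profile -/
noncomputable def pol (r : ℕ) (a : ℕ → ℤ) : ℤ[X] :=
  ∑ j ∈ Finset.range (r + 1), C (a j) * (X ^ j * (1 - X) ^ (r - j))

lemma fs_card_le {F : Set (Set (Ideal (𝓞 K)))} {S : Finset (Ideal (𝓞 K))} (h : S ∈ fs F) :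
    S.card ≤ (PF K).card := Finset.card_le_card (mem_fs.1 h).1

lemma sum_fs (F : Set (Set (Ideal (𝓞 K)))) (hF : ∀ S ∈ F, S ⊆ P2 K) :
    ∑ S ∈ fs F, (X : ℤ[X]) ^ S.card * (1 - X) ^ ((PF K).card - S.card) =
      pol (PF K).card fun j => (prof F j : ℤ) := by
  classical
  unfold pol
  rw [← Finset.sum_fiberwise_of_maps_to (s := fs F) (t := Finset.range ((PF K).card + 1))
    (g := Finset.card) (fun S hS => Finset.mem_range.2 (Nat.lt_succ_of_le (fs_card_le hS)))]
  refine Finset.sum_congr rfl fun j _ => ?_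
  show _ = C ((prof F j : ℕ) : ℤ) * (X ^ j * (1 - X) ^ ((PF K).card - j))
  rw [prof_eq hF]
  rw [Finset.sum_congr rfl (fun S hS => by
    rw [(Finset.mem_filter.1 hS).2] : ∀ S ∈ (fs F).filter (fun S => S.card = j),
      (X : ℤ[X]) ^ S.card * (1 - X) ^ ((PF K).card - S.card) = X ^ j * (1 - X) ^ ((PF K).card - j)),
    Finset.sum_const, nsmul_eq_mul]
  simp

/-- **The cardinality of `Fam`.** -/
lemma fam_card {F : Set (Set (Ideal (𝓞 K)))} (hF : ∀ S ∈ F, S ⊆ P2 K) (n : ℕ) :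
    (((Fam K n F).ncard : ℕ) : ℤ) = comb K (pol (PF K).card fun j => (prof F j : ℤ)) n := by
  classical
  rw [← sum_fs F hF, comb_finsum]
  have hfin : (Fam K n F).Finite := (theta_finite (K := K) n).subset fun _ h => h.1
  have htr : ∀ θ : Ideal (𝓞 K), ∃ S : Finset (Ideal (𝓞 K)), (S : Set (Ideal (𝓞 K))) = tr K θ ∧
      S ⊆ PF K := by
    intro θ
    have hf : (tr K θ).Finite := P2_finite.subset fun _ h => h.1
    refine ⟨hf.toFinset, Set.Finite.coe_toFinset _, fun 𝔭 h => ?_⟩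
    rw [Set.Finite.mem_toFinset] at h
    exact mem_PF.2 h.1
  choose t ht1 ht2 using htr
  rw [Set.ncard_eq_toFinset_card _ hfin, Finset.card_eq_sum_card_fiberwise (f := t) (t := fs F)
    (fun θ hθ => by
      have h1 := (Set.Finite.mem_toFinset _).1 hθ
      show t θ ∈ fs F
      exact mem_fs.2 ⟨ht2 θ, by rw [ht1]; exact h1.2⟩)]
  push_cast
  refine Finset.sum_congr rfl fun S hS => ?_
  obtain ⟨hS1, hS2⟩ := mem_fs.1 hS
  have e1 := count_type (K := K) (PF K \ S) S (fun 𝔭 h => mem_PF.1 (hS1 h))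
    (fun 𝔭 h => mem_PF.1 (Finset.sdiff_subset h)) Finset.disjoint_sdiff n
  rw [Finset.card_sdiff_of_subset hS1] at e1
  rw [← e1, ← Set.ncard_coe_finset]
  congr 2
  ext θ
  simp only [Finset.coe_filter, Set.mem_ofPred_eq, Set.Finite.mem_toFinset]
  constructor
  · rintro ⟨⟨h1, h2⟩, rfl⟩
    refine ⟨h1, fun 𝔭 h => ?_, fun 𝔭 h h3 => ?_⟩
    · have : 𝔭 ∈ ((t θ : Finset (Ideal (𝓞 K))) : Set (Ideal (𝓞 K))) := h
      rw [ht1] at this
      exact this.2
    · obtain ⟨h4, h5⟩ := Finset.mem_sdiff.1 h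
      apply h5
      have : 𝔭 ∈ tr K θ := ⟨mem_PF.1 h4, h3⟩
      rw [← ht1] at this
      exact this
  · rintro ⟨h1, h2, h3⟩
    have h4 : t θ = S := by
      apply Finset.coe_injective
      rw [ht1]
      ext 𝔭
      constructor
      · rintro ⟨h5, h6⟩
        by_contra h7
        exact h3 𝔭 (Finset.mem_sdiff.2 ⟨mem_PF.2 h5, h7⟩) h6
      · intro h5
        exact ⟨mem_PF.1 (hS1 h5), h2 𝔭 h5⟩
    refine ⟨⟨h1, ?_⟩, h4⟩
    rw [← ht1, h4]
    exact hS2

/-! ### the polynomials -/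

lemma pol_sub (r : ℕ) (a b : ℕ → ℤ) : pol r a - pol r b = pol r fun j => a j - b j := by
  unfold pol
  rw [← Finset.sum_sub_distrib]
  refine Finset.sum_congr rfl fun j _ => ?_
  rw [map_sub]
  ring

lemma pol_eval_one (r : ℕ) (a : ℕ → ℤ) : (pol r a).eval 1 = a r := by
  unfold pol
  rw [eval_finsetSum, Finset.sum_eq_single_of_mem r (Finset.self_mem_range_succ r)]
  · simp
  · intro j hj hjr
    have : r - j ≠ 0 := by
      have := Finset.mem_range.1 hj
      omega
    simp [this]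

lemma pol_eval_half (r : ℕ) (a : ℕ → ℤ) :
    ((pol r a).map (Int.castRingHom ℝ)).eval (1 / 2) =
      ((∑ j ∈ Finset.range (r + 1), a j : ℤ) : ℝ) * (1 / 2) ^ r := by
  unfold pol
  rw [Polynomial.map_sum, eval_finsetSum, Int.cast_sum, Finset.sum_mul]
  refine Finset.sum_congr rfl fun j hj => ?_
  have hj' : j ≤ r := Nat.lt_succ_iff.1 (Finset.mem_range.1 hj)
  simp only [Polynomial.map_mul, Polynomial.map_pow, Polynomial.map_sub, Polynomial.map_one,
    Polynomial.map_X, Polynomial.map_C, eval_mul, eval_pow, eval_sub, eval_one, eval_X, eval_C]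
  rw [eq_intCast]
  have h1 : (1 : ℝ) - 1 / 2 = 1 / 2 := by norm_num
  rw [h1, ← pow_add, Nat.add_sub_cancel' hj']

lemma pol_ne_zero {r : ℕ} {a : ℕ → ℤ} {j : ℕ} (hj : j ≤ r) (ha : a j ≠ 0) : pol r a ≠ 0 := by
  intro h0
  have key : ∀ i, i ≤ r → a i = 0 := by
    intro i
    induction i using Nat.strong_induction_on with
    | _ i ih =>
      intro hi
      have h1 : (pol r a).coeff i = a i := by
        unfold pol
        rw [finsetSum_coeff, Finset.sum_eq_single_of_mem i (Finset.mem_range.2 (by omega))]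
        · rw [coeff_C_mul, coeff_X_pow_mul', if_pos le_rfl, Nat.sub_self, coeff_zero_eq_eval_zero]
          simp
        · intro k hk hki
          rcases lt_or_gt_of_ne hki with h2 | h2
          · rw [ih k h2 (by omega)]
            simp
          · rw [coeff_C_mul, coeff_X_pow_mul', if_neg (by omega), mul_zero]
      rw [← h1, h0, coeff_zero]
  exact ha (key j hj)

/-! ### profiles -/

/-- complements -/
lemma prof_compl {F : Set (Set (Ideal (𝓞 K)))} (hF : MaxIntersecting K F) {j : ℕ}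
    (hj : j ≤ (PF K).card) : prof F j + prof F ((PF K).card - j) = (PF K).card.choose j := by
  classical
  rw [prof_eq hF.1, prof_eq hF.1]
  have h1 : ((fs F).filter fun S => S.card = (PF K).card - j).card =
      (((PF K).powersetCard j).filter fun S : Finset (Ideal (𝓞 K)) =>
        (S : Set (Ideal (𝓞 K))) ∉ F).card := by
    refine Finset.card_bij' (fun S _ => PF K \ S) (fun S _ => PF K \ S) ?_ ?_ ?_ ?_
    · intro S hS
      obtain ⟨hS1, hS2⟩ := Finset.mem_filter.1 hS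
      obtain ⟨hS3, hS4⟩ := mem_fs.1 hS1
      refine Finset.mem_filter.2 ⟨Finset.mem_powersetCard.2 ⟨Finset.sdiff_subset, ?_⟩, ?_⟩
      · rw [Finset.card_sdiff_of_subset hS3, hS2]
        omega
      · rw [Finset.coe_sdiff, coe_PF]
        have hsub : (S : Set (Ideal (𝓞 K))) ⊆ P2 K := hF.1 _ hS4
        exact (hF.2.1 _ hsub).1 hS4
    · intro S hS
      obtain ⟨hS1, hS2⟩ := Finset.mem_filter.1 hS
      obtain ⟨hS3, hS4⟩ := Finset.mem_powersetCard.1 hS1
      refine Finset.mem_filter.2 ⟨mem_fs.2 ⟨Finset.sdiff_subset, ?_⟩, ?_⟩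
      · rw [Finset.coe_sdiff, coe_PF]
        have hsub : (S : Set (Ideal (𝓞 K))) ⊆ P2 K := by
          rw [← coe_PF]
          exact_mod_cast hS3
        by_contra h3
        exact hS2 ((hF.2.1 _ hsub).2 h3)
      · rw [Finset.card_sdiff_of_subset hS3, hS4]
    · intro S hS
      exact Finset.sdiff_sdiff_eq_self (mem_fs.1 (Finset.mem_filter.1 hS).1).1
    · intro S hS
      exact Finset.sdiff_sdiff_eq_self (Finset.mem_powersetCard.1 (Finset.mem_filter.1 hS).1).1
  have h2 : (fs F).filter (fun S => S.card = j) =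
      ((PF K).powersetCard j).filter fun S : Finset (Ideal (𝓞 K)) =>
        (S : Set (Ideal (𝓞 K))) ∈ F := by
    ext S
    simp only [Finset.mem_filter, mem_fs, Finset.mem_powersetCard]
    tauto
  rw [h1, h2, Finset.card_filter_add_card_filter_not, Finset.card_powersetCard]

lemma prof_zero {F : Set (Set (Ideal (𝓞 K)))} (hF : MaxIntersecting K F) : prof F 0 = 0 := by
  unfold prof
  rw [Set.ncard_eq_zero (Set.Finite.subset (P2_finite.finite_subsets) fun S hS => hF.1 S hS.1)]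
  rw [Set.eq_empty_iff_forall_notMem]
  rintro S ⟨h1, h2⟩
  rw [Set.ncard_eq_zero (P2_finite.subset (hF.1 S h1))] at h2
  have := hF.2.2 S h1 S h1
  rw [h2] at this
  simp at this

lemma prof_top {F : Set (Set (Ideal (𝓞 K)))} (hF : MaxIntersecting K F) :
    prof F (PF K).card = 1 := by
  have h := prof_compl hF (Nat.zero_le _)
  rw [prof_zero hF, Nat.sub_zero, Nat.choose_zero_right, zero_add] at h
  exact h

lemma prof_large {F : Set (Set (Ideal (𝓞 K)))} (hF : MaxIntersecting K F) {j : ℕ}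
    (hj : (PF K).card < j) : prof F j = 0 := by
  classical
  rw [prof_eq hF.1, Finset.card_eq_zero, Finset.filter_eq_empty_iff]
  intro S hS h
  have := fs_card_le hS
  omega

lemma prof_sum {F : Set (Set (Ideal (𝓞 K)))} (hF : MaxIntersecting K F) :
    2 * ∑ j ∈ Finset.range ((PF K).card + 1), prof F j = 2 ^ (PF K).card := by
  have h1 : ∑ j ∈ Finset.range ((PF K).card + 1), prof F j =
      ∑ j ∈ Finset.range ((PF K).card + 1), prof F ((PF K).card - j) := by
    rw [← Finset.sum_range_reflect]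
    refine Finset.sum_congr rfl fun j _ => ?_
    congr 1
  rw [two_mul]
  nth_rewrite 2 [h1]
  rw [← Finset.sum_add_distrib, Finset.sum_congr rfl fun j hj =>
    prof_compl hF (Nat.lt_succ_iff.1 (Finset.mem_range.1 hj)), Nat.sum_range_choose]

/-- **Families with different profiles.** -/
theorem infinite_lt {F F' : Set (Set (Ideal (𝓞 K)))} (hF : MaxIntersecting K F)
    (hF' : MaxIntersecting K F') (h : prof F ≠ prof F') :
    {n : ℕ | (Fam K n F).ncard < (Fam K n F').ncard}.Infinite := by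
  obtain ⟨j, hj⟩ := Function.ne_iff.1 h
  have hjr : j ≤ (PF K).card := by
    by_contra hc
    push Not at hc
    exact hj (by rw [prof_large hF hc, prof_large hF' hc])
  set D : ℤ[X] := pol (PF K).card fun i => (prof F i : ℤ) - (prof F' i : ℤ) with hD
  have hDne : D ≠ 0 := pol_ne_zero hjr (by
    simp only [ne_eq, sub_eq_zero]
    exact_mod_cast hj)
  have h0 : D.eval 1 = 0 := by
    rw [hD, pol_eval_one, prof_top hF, prof_top hF', sub_self]
  have h1 : (D.map (Int.castRingHom ℝ)).eval (1 / 2) = 0 := by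
    rw [hD, pol_eval_half, Finset.sum_sub_distrib]
    have e1 := prof_sum hF
    have e2 := prof_sum hF'
    have e3 : (∑ j ∈ Finset.range ((PF K).card + 1), prof F j) =
        ∑ j ∈ Finset.range ((PF K).card + 1), prof F' j := by omega
    have e4 : (∑ j ∈ Finset.range ((PF K).card + 1), (prof F j : ℤ)) =
        ∑ j ∈ Finset.range ((PF K).card + 1), (prof F' j : ℤ) := by exact_mod_cast e3
    rw [e4, sub_self, Int.cast_zero, zero_mul]
  have key := infinite_neg (K := K) hDne h0 h1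
  refine key.mono fun n hn => ?_
  have e1 := fam_card (K := K) hF.1 n
  have e2 := fam_card (K := K) hF'.1 n
  have e3 : comb K D n = (((Fam K n F).ncard : ℕ) : ℤ) - (((Fam K n F').ncard : ℕ) : ℤ) := by
    rw [e1, e2, ← comb_sub, pol_sub]
  have e4 : comb K D n < 0 := hn
  rw [e3] at e4
  show (Fam K n F).ncard < (Fam K n F').ncard
  omega

lemma card_eq_of_prof {F F' : Set (Set (Ideal (𝓞 K)))} (hF : ∀ S ∈ F, S ⊆ P2 K)
    (hF' : ∀ S ∈ F', S ⊆ P2 K) (h : prof F = prof F') (n : ℕ) :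
    (Fam K n F).ncard = (Fam K n F').ncard := by
  have e1 := fam_card (K := K) hF n
  have e2 := fam_card (K := K) hF' n
  rw [h, ← e2] at e1
  exact_mod_cast e1

end fam

end Pool.Agent.W5h38.SC
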