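import Pool.Agent.TH988.RB.Lan

/-!
# Laplace transforms of step functions of a logarithmic variable
-/

set_option autoImplicit false

namespace Pool.Agent.W5h38.SC

open MeasureTheory Set Filter Topology
open Pool.Agent.W263.BSD

/-- the step function of a sequence, on a logarithmic scale -/
noncomputable def st (c : ℕ → ℝ) (u : ℝ) : ℝ := c ⌊Real.exp u⌋₊

lemma st_meas (c : ℕ → ℝ) : Measurable (st c) :=
  (measurable_from_nat (f := c)).comp (Nat.measurable_floor.comp Real.measurable_exp)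

lemma st_neg {c : ℕ → ℝ} (h0 : c 0 = 0) {u : ℝ} (hu : u < 0) : st c u = 0 := by
  have h1 : Real.exp u < 1 := by
    rw [← Real.exp_zero]
    exact Real.exp_lt_exp.2 hu
  unfold st
  rw [Nat.floor_eq_zero.2 h1, h0]

lemma st_abs_le {c : ℕ → ℝ} {C : ℝ} (hC : ∀ n : ℕ, |c n| ≤ C * n) (u : ℝ) :
    |st c u| ≤ C * Real.exp u := by
  have hC0 : 0 ≤ C := by
    have := (abs_nonneg _).trans (hC 1)
    simpa using this
  refine (hC _).trans (mul_le_mul_of_nonneg_left (Nat.floor_le (Real.exp_pos u).le) hC0)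

lemma exp_LInt (b : ℝ) {w : ℝ} (hw : b < w) : LInt (fun u => Real.exp (b * u)) w := by
  unfold LInt
  have := exp_neg_integrableOn_Ioi 0 (b := w - b) (by linarith)
  refine this.congr (Eventually.of_forall fun u => ?_)
  show Real.exp (-(w - b) * u) = Real.exp (b * u) * Real.exp (-(w * u))
  rw [← Real.exp_add]
  congr 1
  ring

lemma exp_lap (b : ℝ) {w : ℝ} (hw : b < w) : lap (fun u => Real.exp (b * u)) w = 1 / (w - b) := by
  unfold lap
  have h1 : ∀ u : ℝ, Real.exp (b * u) * Real.exp (-(w * u)) = Real.exp ((b - w) * u) := fun u => by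
    rw [← Real.exp_add]
    congr 1
    ring
  simp only [h1]
  rw [integral_exp_mul_Ioi (by linarith), mul_zero, Real.exp_zero]
  have h2 : b - w ≠ 0 := by linarith
  have h3 : w - b ≠ 0 := by linarith
  field_simp
  ring

lemma st_LInt {c : ℕ → ℝ} {C : ℝ} (hC : ∀ n : ℕ, |c n| ≤ C * n) {w : ℝ} (hw : 1 < w) :
    LInt (st c) w := by
  have h := (exp_LInt 1 hw).const_mul C
  unfold LInt at h ⊢
  refine Integrable.mono h ?_ (Eventually.of_forall fun u => ?_)
  · exact ((st_meas c).mul (by fun_prop)).aestronglyMeasurable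
  · rw [norm_mul, norm_mul]
    refine mul_le_mul_of_nonneg_right ?_ (norm_nonneg _)
    have h1 := st_abs_le hC u
    rw [Real.norm_eq_abs, Real.norm_eq_abs]
    refine h1.trans (le_trans ?_ (le_abs_self _))
    show C * Real.exp u ≤ C * Real.exp (1 * u)
    rw [one_mul]

/-- dividing the variable by `k` -/
lemma lap_div {c : ℕ → ℝ} (h0 : c 0 = 0) (k : ℕ) (hk : 1 ≤ k) (w : ℝ) :
    lap (st fun n => c (n / k)) w = (k : ℝ) ^ (-w) * lap (st c) w := by
  have hk0 : (0 : ℝ) < k := by exact_mod_cast hk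
  set L : ℝ := Real.log k with hL
  have hL0 : 0 ≤ L := Real.log_nonneg (by exact_mod_cast hk)
  have hst : ∀ u, st (fun n => c (n / k)) u = st c (u - L) := by
    intro u
    unfold st
    show c (⌊Real.exp u⌋₊ / k) = c ⌊Real.exp (u - L)⌋₊
    rw [Real.exp_sub, hL, Real.exp_log hk0, Nat.floor_div_natCast]
  unfold lap
  rw [← integral_Ici_eq_integral_Ioi, ← integral_Ici_eq_integral_Ioi,
    ← integral_indicator measurableSet_Ici, ← integral_indicator measurableSet_Ici,
    ← integral_const_mul]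
  rw [← integral_sub_right_eq_self (μ := (volume : Measure ℝ)) (fun a => (k : ℝ) ^ (-w) *
    (Ici (0 : ℝ)).indicator (fun u => st c u * Real.exp (-(w * u))) a) L]
  refine integral_congr_ae (Eventually.of_forall fun u => ?_)
  show (Ici (0 : ℝ)).indicator (fun u => st (fun n => c (n / k)) u * Real.exp (-(w * u))) u =
    (k : ℝ) ^ (-w) * (Ici (0 : ℝ)).indicator (fun u => st c u * Real.exp (-(w * u))) (u - L)
  by_cases hu : 0 ≤ u - L
  · rw [Set.indicator_of_mem (show u ∈ Ici (0 : ℝ) by show 0 ≤ u; linarith),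
      Set.indicator_of_mem (show u - L ∈ Ici (0 : ℝ) from hu), hst]
    have : Real.exp (-(w * u)) = (k : ℝ) ^ (-w) * Real.exp (-(w * (u - L))) := by
      rw [Real.rpow_def_of_pos hk0, ← Real.exp_add, ← hL]
      congr 1
      ring
    rw [this]
    ring
  · push Not at hu
    rw [Set.indicator_of_notMem (show u - L ∉ Ici (0 : ℝ) by show ¬ 0 ≤ u - L; linarith), mul_zero]
    by_cases hu0 : 0 ≤ u
    · rw [Set.indicator_of_mem (show u ∈ Ici (0 : ℝ) from hu0), hst, st_neg h0 hu, zero_mul]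
    · rw [Set.indicator_of_notMem (show u ∉ Ici (0 : ℝ) from hu0)]

lemma st_finsum {ι : Type*} (s : Finset ι) (c : ι → ℕ → ℝ) (u : ℝ) :
    st (fun n => ∑ i ∈ s, c i n) u = ∑ i ∈ s, st (c i) u := rfl

lemma lap_finsum {ι : Type*} (s : Finset ι) (f : ι → ℝ → ℝ) {w : ℝ} (h : ∀ i ∈ s, LInt (f i) w) :
    lap (fun u => ∑ i ∈ s, f i u) w = ∑ i ∈ s, lap (f i) w := by
  unfold lap
  rw [← integral_finsetSum _ h]
  congr 1
  funext u
  rw [Finset.sum_mul]

/-- if the Laplace transform of a step function converges at `-1`, the steps tend to zero -/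
lemma tendsto_zero {c : ℕ → ℝ} {f : ℝ → ℝ} (hf : ∀ u, 0 < u → st c u ≤ f u)
    (hc : ∀ᶠ n in atTop, 0 ≤ c n) (h : LInt f (-1)) : Tendsto c atTop (𝓝 0) := by
  have h1 : Tendsto (fun R : ℝ => ∫ u in (0 : ℝ)..R, f u * Real.exp (-(-1 * u))) atTop
      (𝓝 (∫ u in Ioi (0 : ℝ), f u * Real.exp (-(-1 * u)))) :=
    intervalIntegral_tendsto_integral_Ioi 0 h tendsto_id
  have hl1 : Tendsto (fun n : ℕ => Real.log ((n : ℝ) + 1)) atTop atTop :=
    Real.tendsto_log_atTop.comp (tendsto_atTop_add_const_right _ _ tendsto_natCast_atTop_atTop)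
  have hl0 : Tendsto (fun n : ℕ => Real.log (n : ℝ)) atTop atTop :=
    Real.tendsto_log_atTop.comp tendsto_natCast_atTop_atTop
  have h2 := (h1.comp hl1).sub (h1.comp hl0)
  rw [sub_self] at h2
  refine squeeze_zero' hc ?_ h2
  filter_upwards [eventually_gt_atTop 0, hc] with n hn hcn
  have hn0 : (0 : ℝ) < n := by exact_mod_cast hn
  have hn1 : (1 : ℝ) ≤ n := by exact_mod_cast hn
  have hlog : Real.log n ≤ Real.log ((n : ℝ) + 1) := Real.log_le_log hn0 (by linarith)
  have hlog0 : 0 ≤ Real.log n := Real.log_nonneg hn1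
  have hII : ∀ a b : ℝ, 0 ≤ a → a ≤ b →
      IntervalIntegrable (fun u => f u * Real.exp (-(-1 * u))) volume a b := by
    intro a b ha hab
    rw [intervalIntegrable_iff_integrableOn_Ioc_of_le hab]
    exact h.mono_set fun u hu => lt_of_le_of_lt ha hu.1
  show c n ≤ (∫ u in (0 : ℝ)..Real.log ((n : ℝ) + 1), f u * Real.exp (-(-1 * u))) -
    ∫ u in (0 : ℝ)..Real.log (n : ℝ), f u * Real.exp (-(-1 * u))
  rw [intervalIntegral.integral_interval_sub_left (hII _ _ le_rfl (hlog0.trans hlog))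
    (hII _ _ le_rfl hlog0)]
  have h3 : ∫ u in Real.log (n : ℝ)..Real.log ((n : ℝ) + 1), c n * Real.exp u = c n := by
    rw [intervalIntegral.integral_const_mul, integral_exp, Real.exp_log (by linarith),
      Real.exp_log hn0]
    ring
  rw [← h3]
  refine intervalIntegral.integral_mono_on_of_le_Ioo hlog ?_ (hII _ _ hlog0 hlog) ?_
  · exact (continuous_const.mul Real.continuous_exp).intervalIntegrable _ _
  · intro u hu
    have e1 : -(-1 * u) = u := by ring
    rw [e1]
    refine mul_le_mul_of_nonneg_right ?_ (Real.exp_pos u).le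
    refine le_trans ?_ (hf u (lt_of_le_of_lt hlog0 hu.1))
    unfold st
    have h4 : ⌊Real.exp u⌋₊ = n := by
      rw [Nat.floor_eq_iff (Real.exp_pos u).le]
      constructor
      · rw [← Real.exp_log hn0]
        exact Real.exp_le_exp.2 hu.1.le
      · rw [← Real.exp_log (show (0 : ℝ) < n + 1 by linarith)]
        exact Real.exp_lt_exp.2 hu.2
    rw [h4]

end Pool.Agent.W5h38.SC
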