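import Pool.Agent.W5h38.SC.Zeta

/-!
# Sign changes of combinations of the counting function of the ideals at `n / 2 ^ i`
-/

set_option autoImplicit false

open NumberField Filter Topology Set MeasureTheory Polynomial

namespace Pool.Agent.W5h38.SC

open Pool.Agent.W263.BSD

section main
variable {K : Type} [Field K] [NumberField K]

/-- the combination `∑ a_i A(n / 2 ^ i)` of the values of the counting function, `D = ∑ a_i X ^ i` -/
noncomputable def comb (K : Type) [Field K] [NumberField K] (D : ℤ[X]) (n : ℕ) : ℤ :=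
  ∑ i ∈ D.support, D.coeff i * (cnt K (n / 2 ^ i) : ℤ)

/-- the same, as a real number -/
lemma comb_cast (D : ℤ[X]) (n : ℕ) :
    ((comb K D n : ℤ) : ℝ) = ∑ i ∈ D.support, (D.coeff i : ℝ) * cr K (n / 2 ^ i) := by
  unfold comb cr
  push_cast
  rfl

lemma succ_div_of_not_dvd {a b : ℕ} (h : ¬ b ∣ a + 1) : (a + 1) / b = a / b := by
  rw [Nat.succ_div, if_neg h, add_zero]

/-- arbitrarily large odd norms -/
lemma exists_odd_norm (N : ℕ) : ∃ m : ℕ, N ≤ m ∧ Odd m ∧ cnt K (m - 1) < cnt K m := by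
  set I : Ideal (𝓞 K) := Ideal.span {(3 : 𝓞 K)} with hI
  have hn : Ideal.absNorm I = 3 ^ Module.finrank ℤ (𝓞 K) := by
    rw [hI, Ideal.absNorm_span_singleton]
    have : (3 : 𝓞 K) = algebraMap ℤ (𝓞 K) 3 := by simp
    rw [this, Algebra.norm_algebraMap, Int.natAbs_pow]
    rfl
  have hd : 1 ≤ Module.finrank ℤ (𝓞 K) := by
    rw [RingOfIntegers.rank]
    exact Module.finrank_pos
  have hk : Ideal.absNorm (I ^ (N + 1)) = 3 ^ (Module.finrank ℤ (𝓞 K) * (N + 1)) := by
    rw [map_pow, hn, pow_mul]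
  have hlt : N < 3 ^ (Module.finrank ℤ (𝓞 K) * (N + 1)) := by
    calc N < 3 ^ N := Nat.lt_pow_self (by norm_num)
      _ ≤ 3 ^ (Module.finrank ℤ (𝓞 K) * (N + 1)) := by
          refine Nat.pow_le_pow_right (by norm_num) ?_
          nlinarith
  refine ⟨3 ^ (Module.finrank ℤ (𝓞 K) * (N + 1)), hlt.le, Odd.pow (by decide), ?_⟩
  unfold cnt
  refine Set.ncard_lt_ncard ?_ (theta_finite _)
  refine ⟨fun θ hθ => ⟨hθ.1, hθ.2.trans (Nat.sub_le _ _)⟩, fun h => ?_⟩
  have h1 : I ^ (N + 1) ∈ R130.CF.Ideals.Theta K (3 ^ (Module.finrank ℤ (𝓞 K) * (N + 1))) := by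
    refine ⟨?_, hk.le⟩
    rw [← Ideal.zero_eq_bot, Ne, pow_eq_zero_iff (by omega), Ideal.zero_eq_bot, hI,
      Ideal.span_singleton_eq_bot]
    norm_num
  have h2 := (h h1).2
  rw [hk] at h2
  have : 0 < 3 ^ (Module.finrank ℤ (𝓞 K) * (N + 1)) := by positivity
  omega

/-- the combination is not eventually zero -/
lemma not_eventually_zero {D : ℤ[X]} (hD : D ≠ 0) : ¬ ∀ᶠ n in atTop, comb K D n = 0 := by
  intro h
  obtain ⟨N, hN⟩ := eventually_atTop.1 h
  set j := D.natTrailingDegree with hj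
  have hcj : D.coeff j ≠ 0 := by
    rw [hj]
    exact mt Polynomial.trailingCoeff_eq_zero.1 hD
  have hjs : j ∈ D.support := mem_support_iff.2 hcj
  obtain ⟨m, hm, hodd, hlt⟩ := exists_odd_norm (K := K) (N + 1)
  have hm0 : 1 ≤ m := by omega
  have hpos : 0 < 2 ^ j := by positivity
  obtain ⟨a, ha⟩ : ∃ a, 2 ^ j * m = a + 1 := ⟨2 ^ j * m - 1, by
    have := Nat.mul_pos hpos hm0
    omega⟩
  have haN : N ≤ a := by
    have : m ≤ 2 ^ j * m := Nat.le_mul_of_pos_left _ hpos
    omega
  have h1 := hN (a + 1) (by omega)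
  have h2 := hN a haN
  have h3 : comb K D (a + 1) - comb K D a =
      D.coeff j * ((cnt K m : ℤ) - (cnt K (m - 1) : ℤ)) := by
    unfold comb
    rw [← Finset.sum_sub_distrib, Finset.sum_eq_single_of_mem j hjs]
    · have e1 : (a + 1) / 2 ^ j = m := by
        rw [← ha, Nat.mul_div_cancel_left _ hpos]
      have e2 : a / 2 ^ j = m - 1 := by
        have e3 : (a + 1) / 2 ^ j = a / 2 ^ j + if 2 ^ j ∣ a + 1 then 1 else 0 := Nat.succ_div
        rw [if_pos (by rw [← ha]; exact Dvd.intro _ rfl), e1] at e3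
        omega
      rw [e1, e2]
      ring
    · intro i hi hij
      have hji : j < i := lt_of_le_of_ne (natTrailingDegree_le_of_mem_supp i hi) (Ne.symm hij)
      have hnd : ¬ 2 ^ i ∣ a + 1 := by
        intro hdvd
        rw [← ha] at hdvd
        have h5 : 2 ^ (j + 1) ∣ 2 ^ j * m := (pow_dvd_pow 2 hji).trans hdvd
        rw [pow_succ, Nat.mul_dvd_mul_iff_left hpos] at h5
        have := hodd.not_two_dvd_nat
        exact this h5
      rw [succ_div_of_not_dvd hnd, sub_self]
  rw [h1, h2, sub_self] at h3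
  have h4 : (0 : ℤ) < (cnt K m : ℤ) - (cnt K (m - 1) : ℤ) := by
    have : (cnt K (m - 1) : ℤ) < (cnt K m : ℤ) := by exact_mod_cast hlt
    linarith
  rcases mul_eq_zero.1 h3.symm with h5 | h5
  · exact hcj h5
  · rw [h5] at h4
    exact lt_irrefl _ h4

/-- the Dirichlet polynomial of `D` -/
noncomputable def dir (D : ℤ[X]) (s : ℂ) : ℂ :=
  ∑ i ∈ D.support, (D.coeff i : ℂ) * ((2 ^ i : ℕ) : ℂ) ^ (-s)

lemma dir_diff (D : ℤ[X]) : Differentiable ℂ (dir D) := by
  unfold dir
  refine Differentiable.fun_sum fun i _ => ?_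
  refine (differentiable_const _).mul fun s => ?_
  refine DifferentiableAt.const_cpow (by fun_prop) (Or.inl ?_)
  have : (2 ^ i : ℕ) ≠ 0 := by positivity
  exact_mod_cast this

lemma dir_real (D : ℤ[X]) (w : ℝ) :
    dir D w = ((∑ i ∈ D.support, (D.coeff i : ℝ) * ((2 ^ i : ℕ) : ℝ) ^ (-w) : ℝ) : ℂ) := by
  unfold dir
  push_cast
  refine Finset.sum_congr rfl fun i _ => ?_
  congr 1
  have := Complex.ofReal_cpow (show (0 : ℝ) ≤ ((2 ^ i : ℕ) : ℝ) by positivity) (-w)
  push_cast at this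
  rw [this]

/-- **Sign changes.** -/
theorem infinite_neg {D : ℤ[X]} (hD : D ≠ 0) (h0 : D.eval 1 = 0)
    (h1 : (D.map (Int.castRingHom ℝ)).eval (1 / 2) = 0) : {n : ℕ | comb K D n < 0}.Infinite := by
  intro hfin
  obtain ⟨N, hN⟩ : ∃ N : ℕ, ∀ n, N ≤ n → 0 ≤ comb K D n := by
    obtain ⟨N, hN⟩ := hfin.bddAbove
    refine ⟨N + 1, fun n hn => ?_⟩
    by_contra hc
    push Not at hc
    have : n ≤ N := hN hc
    omega
  -- the step function
  set c : ℕ → ℝ := fun n => ∑ i ∈ D.support, (D.coeff i : ℝ) * cr K (n / 2 ^ i) with hc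
  have hcc : ∀ n, c n = ((comb K D n : ℤ) : ℝ) := fun n => (comb_cast D n).symm
  obtain ⟨B, hB⟩ := cr_bound (K := K)
  have hB0 : 0 ≤ B := by
    have := (abs_nonneg _).trans (hB 1)
    simpa using this
  have hBi : ∀ i n : ℕ, |cr K (n / 2 ^ i)| ≤ B * n := by
    intro i n
    refine (hB _).trans (mul_le_mul_of_nonneg_left ?_ hB0)
    exact_mod_cast Nat.div_le_self _ _
  have hLi : ∀ i : ℕ, ∀ w : ℝ, 1 < w → LInt (st fun n => cr K (n / 2 ^ i)) w := fun i w hw =>
    st_LInt (hBi i) hw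
  have hstc : ∀ u, st c u = ∑ i ∈ D.support, (D.coeff i : ℝ) * st (fun n => cr K (n / 2 ^ i)) u :=
    fun u => rfl
  have hLc : ∀ w : ℝ, 1 < w → LInt (st c) w := by
    intro w hw
    have h2 : ∀ i ∈ D.support, IntegrableOn (fun u => (D.coeff i : ℝ) *
        st (fun n => cr K (n / 2 ^ i)) u * Real.exp (-(w * u))) (Ioi 0) := fun i _ =>
      (hLi i w hw).const_mul _
    have h3 := integrable_finsetSum D.support h2
    unfold LInt IntegrableOn
    refine h3.congr (Eventually.of_forall fun u => ?_)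
    simp only []
    rw [hstc, Finset.sum_mul]
  have hlapc : ∀ w : ℝ, 1 < w → lap (st c) w =
      (∑ i ∈ D.support, (D.coeff i : ℝ) * ((2 ^ i : ℕ) : ℝ) ^ (-w)) * lap (st (cr K)) w := by
    intro w hw
    have h2 : lap (st c) w = lap (fun u => ∑ i ∈ D.support, (D.coeff i : ℝ) *
      st (fun n => cr K (n / 2 ^ i)) u) w := rfl
    rw [h2, lap_finsum _ _ (fun i _ => (hLi i w hw).const_mul _), Finset.sum_mul]
    refine Finset.sum_congr rfl fun i _ => ?_
    rw [lap_const_mul, lap_div cr_zero _ Nat.one_le_two_pow, mul_assoc]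
  -- the entire function
  have hD0 : dir D 0 = 0 := by
    unfold dir
    rw [Polynomial.eval_eq_sum] at h0
    unfold Polynomial.sum at h0
    simp only [one_pow, mul_one] at h0
    simp only [neg_zero, Complex.cpow_zero, mul_one]
    exact_mod_cast congrArg (Int.cast : ℤ → ℂ) h0
  have hD1 : dir D 1 = 0 := by
    have h2 := dir_real D 1
    rw [Complex.ofReal_one] at h2
    rw [h2]
    rw [Polynomial.eval_map, Polynomial.eval₂_eq_sum] at h1
    unfold Polynomial.sum at h1
    rw [← Complex.ofReal_zero, ← h1]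
    congr 1
    refine Finset.sum_congr rfl fun i _ => ?_
    rw [Real.rpow_neg_one]
    push_cast
    rw [one_div, inv_pow]
    rfl
  obtain ⟨G, hG, hGe⟩ := entire K (dir_diff D) hD0 hD1
  -- the nonnegative function
  obtain ⟨C, hC0, hC⟩ : ∃ C : ℝ, 0 ≤ C ∧ ∀ u : ℝ, 0 < u → 0 ≤ st c u + C * Real.exp (-2 * u) := by
    obtain ⟨M, hM⟩ : ∃ M : ℝ, ∀ n < N, |c n| ≤ M := by
      obtain ⟨M, hM⟩ := ((Set.finite_lt_nat N).image fun n => |c n|).bddAbove
      exact ⟨M, fun n hn => hM ⟨n, hn, rfl⟩⟩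
    refine ⟨|M| * (N : ℝ) ^ 2, by positivity, fun u hu => ?_⟩
    by_cases hn : ⌊Real.exp u⌋₊ < N
    · have h2 : -|M| ≤ st c u := by
        have h3 := hM _ hn
        have h4 := neg_abs_le (c ⌊Real.exp u⌋₊)
        have h5 := le_abs_self M
        unfold st
        linarith
      have h3 : Real.exp u ≤ N := by
        have h4 := Nat.lt_floor_add_one (Real.exp u)
        have h5 : ((⌊Real.exp u⌋₊ : ℕ) : ℝ) + 1 ≤ N := by exact_mod_cast hn
        linarith
      have h4 : (1 : ℝ) ≤ (N : ℝ) ^ 2 * Real.exp (-2 * u) := by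
        have h5 : Real.exp (-2 * u) = (Real.exp u ^ 2)⁻¹ := by
          rw [← Real.exp_nat_mul, ← Real.exp_neg]
          congr 1
          push_cast
          ring
        rw [h5, ← div_eq_mul_inv, one_le_div (by positivity)]
        exact pow_le_pow_left₀ (Real.exp_pos u).le h3 2
      have h5 : |M| * 1 ≤ |M| * ((N : ℝ) ^ 2 * Real.exp (-2 * u)) :=
        mul_le_mul_of_nonneg_left h4 (abs_nonneg _)
      rw [mul_assoc]
      linarith
    · push Not at hn
      have h2 : 0 ≤ st c u := by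
        unfold st
        rw [hcc]
        exact_mod_cast hN _ hn
      have h3 : 0 ≤ |M| * (N : ℝ) ^ 2 * Real.exp (-2 * u) := by positivity
      linarith
  have key := Pool.Agent.TH988.RB.landau_lap (f := fun u => st c u + C * Real.exp (-2 * u))
    ((st_meas c).add (by fun_prop)) hC (a := -2) (w1 := 1)
    (fun w hw => (hLc w hw).add ((exp_LInt (-2) (by linarith)).const_mul C))
    (g := fun w => (G (w : ℂ)).re + C * (1 / (w - -2)))
    (fun w hw => by
      refine AnalyticAt.add ?_ ?_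
      · exact ((hG.analyticAt (w : ℂ))).re_ofReal
      · refine analyticAt_const.mul (AnalyticAt.div analyticAt_const
          (analyticAt_id.sub analyticAt_const) ?_)
        show w - -2 ≠ 0
        linarith)
    (fun w hw _ => by
      rw [lap_add (hLc w hw) ((exp_LInt (-2) (by linarith)).const_mul C), lap_const_mul,
        exp_lap _ (by linarith : (-2 : ℝ) < w), hlapc w hw, hGe w hw, dir_real,
        ← Complex.ofReal_mul, Complex.ofReal_re])
  have hlim : Tendsto c atTop (𝓝 0) := by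
    refine tendsto_zero (f := fun u => st c u + C * Real.exp (-2 * u)) (fun u _ => ?_) ?_
      (key.1 (-1) (by norm_num))
    · have : 0 ≤ C * Real.exp (-2 * u) := by positivity
      linarith
    · filter_upwards [eventually_ge_atTop N] with n hn
      rw [hcc]
      exact_mod_cast hN n hn
  refine not_eventually_zero (K := K) hD ?_
  have h2 : ∀ᶠ n in atTop, |c n| < 1 := (tendsto_order.1 hlim.abs).2 1 (by simp)
  filter_upwards [h2] with n hn
  rw [hcc] at hn
  have h3 : |comb K D n| < 1 := by exact_mod_cast hn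
  exact Int.abs_lt_one_iff.1 h3

theorem infinite_pos {D : ℤ[X]} (hD : D ≠ 0) (h0 : D.eval 1 = 0)
    (h1 : (D.map (Int.castRingHom ℝ)).eval (1 / 2) = 0) : {n : ℕ | 0 < comb K D n}.Infinite := by
  have h := infinite_neg (K := K) (D := -D) (neg_ne_zero.2 hD) (by simp [h0])
    (by rw [Polynomial.map_neg, eval_neg, h1, neg_zero])
  have h2 : {n : ℕ | comb K (-D) n < 0} = {n : ℕ | 0 < comb K D n} := by
    ext n
    simp only [Set.mem_ofPred_eq]
    have : comb K (-D) n = -comb K D n := by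
      unfold comb
      rw [Polynomial.support_neg, ← Finset.sum_neg_distrib]
      refine Finset.sum_congr rfl fun i _ => ?_
      rw [Polynomial.coeff_neg]
      ring
    rw [this]
    omega
  rw [← h2]
  exact h

end main

end Pool.Agent.W5h38.SC
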