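import Pool.Agent.R362.HkFe
import Pool.Agent.R130.CF.Three
import Pool.Agent.W5h38.SC.Lap

/-!
# The Laplace transform of the counting function of the ideals, and the entire function
-/

set_option autoImplicit false

open NumberField Complex Filter Topology Set MeasureTheory

namespace Pool.Agent.W5h38.SC

open Pool.Agent.Y773 Pool.Agent.Y773.G
open Pool.Agent.R362.HL
open Pool.Agent.W263.BSD
open R130.CF.Ideals (Theta)

section ded
variable {K : Type} [Field K] [NumberField K]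

open Classical in
/-- the trivial character of the ideals -/
noncomputable def triv (K : Type) [Field K] [NumberField K] : Ideal (𝓞 K) →*₀ ℂ where
  toFun 𝔞 := if 𝔞 = ⊥ then 0 else 1
  map_zero' := by simp
  map_one' := by
    rw [Ideal.one_eq_top, if_neg]
    exact top_ne_bot
  map_mul' 𝔞 𝔟 := by
    by_cases h1 : 𝔞 = ⊥
    · simp [h1]
    · by_cases h2 : 𝔟 = ⊥
      · simp [h2]
      · have h3 : 𝔞 * 𝔟 ≠ ⊥ := by
          rw [Ne, Ideal.mul_eq_bot]
          tauto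
        simp [h1, h2, h3]

lemma triv_apply {𝔞 : Ideal (𝓞 K)} (h : 𝔞 ≠ ⊥) : triv K 𝔞 = 1 := by
  classical
  show (if 𝔞 = ⊥ then (0 : ℂ) else 1) = 1
  rw [if_neg h]

lemma isUnr_triv : IsUnr (fun _ => 0) (triv K) where
  sig_le := fun _ => Nat.zero_le _
  cpx := fun _ _ => rfl
  sig := fun x hx => by
    have h1 : Ideal.span {x} ≠ ⊥ := by
      rw [Ne, Ideal.span_singleton_eq_bot]
      exact hx
    rw [triv_apply h1]
    unfold G.sg
    simp

/-- the number of nonzero ideals of norm at most `n` -/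
noncomputable def cnt (K : Type) [Field K] [NumberField K] (n : ℕ) : ℕ := (Theta K n).ncard

lemma theta_finite (n : ℕ) : (Theta K n).Finite :=
  (Ideal.finite_setOfPred_absNorm_le n).subset fun _ h => h.2

lemma cnt_zero : cnt K 0 = 0 := by
  unfold cnt
  have : Theta K 0 = ∅ := by
    ext θ
    simp only [Theta, Set.mem_ofPred_eq, Set.mem_empty_iff_false, iff_false, not_and]
    intro h h2
    exact h (Ideal.absNorm_eq_zero_iff.1 (Nat.le_zero.1 h2))
  rw [this, Set.ncard_empty]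

instance countable_ideals : Countable (Ideal (𝓞 K)) := by
  rw [← Set.countable_univ_iff]
  have : (Set.univ : Set (Ideal (𝓞 K))) = ⋃ n : ℕ, {I | Ideal.absNorm I ≤ n} := by
    ext I
    simp only [Set.mem_univ, Set.mem_iUnion, Set.mem_ofPred_eq, true_iff]
    exact ⟨Ideal.absNorm I, le_rfl⟩
  rw [this]
  exact Set.countable_iUnion fun n => (Ideal.finite_setOfPred_absNorm_le n).countable

open nonZeroDivisors in
lemma cnt_bound : ∃ C : ℝ, ∀ n : ℕ, (cnt K n : ℝ) ≤ C * n := by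
  have h := (NumberField.Ideal.tendsto_norm_le_div_atTop₀ K).comp tendsto_natCast_atTop_atTop
  obtain ⟨C, hC⟩ := h.bddAbove_range
  refine ⟨C, fun n => ?_⟩
  have h1 : Nat.card {I : (Ideal (𝓞 K))⁰ // (Ideal.absNorm (I : Ideal (𝓞 K)) : ℝ) ≤ (n : ℝ)} =
      cnt K n := by
    unfold cnt
    rw [← Nat.card_coe_set_eq]
    refine Nat.card_congr ⟨fun I => ⟨(I.1 : Ideal (𝓞 K)), nonZeroDivisors.ne_zero I.1.2, by
      exact_mod_cast I.2⟩, fun I => ⟨⟨I.1, mem_nonZeroDivisors_of_ne_zero I.2.1⟩, by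
      have := I.2.2
      exact_mod_cast this⟩, fun I => rfl, fun I => rfl⟩
  rcases Nat.eq_zero_or_pos n with rfl | hn
  · rw [cnt_zero]
    simp
  · have h2 := hC (Set.mem_range_self n)
    simp only [Function.comp_apply] at h2
    rw [h1, div_le_iff₀ (by exact_mod_cast hn)] at h2
    exact h2

/-- the counting function as a real sequence -/
noncomputable def cr (K : Type) [Field K] [NumberField K] (n : ℕ) : ℝ := (cnt K n : ℝ)

lemma cr_zero : cr K 0 = 0 := by
  unfold cr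
  rw [cnt_zero, Nat.cast_zero]

lemma cr_bound : ∃ C : ℝ, ∀ n : ℕ, |cr K n| ≤ C * n := by
  obtain ⟨C, hC⟩ := cnt_bound (K := K)
  refine ⟨C, fun n => ?_⟩
  unfold cr
  rw [Nat.abs_cast]
  exact hC n

/-- the nonzero ideals -/
abbrev NI (K : Type) [Field K] [NumberField K] := {𝔞 : Ideal (𝓞 K) // 𝔞 ≠ ⊥}

lemma norm_pos (𝔞 : NI K) : 1 ≤ Ideal.absNorm 𝔞.1 := by
  rw [Nat.one_le_iff_ne_zero, Ne, Ideal.absNorm_eq_zero_iff]
  exact 𝔞.2

lemma tsum_ind (n : ℕ) (x : ENNReal) :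
    ∑' 𝔞 : NI K, (if Ideal.absNorm 𝔞.1 ≤ n then x else 0) = (cnt K n : ENNReal) * x := by
  have hfin : {𝔞 : NI K | Ideal.absNorm 𝔞.1 ≤ n}.Finite := by
    refine ((theta_finite (K := K) n).preimage Subtype.val_injective.injOn).subset ?_
    intro 𝔞 h
    exact ⟨𝔞.2, h⟩
  rw [tsum_eq_sum (s := hfin.toFinset) (fun b hb => by
    rw [Set.Finite.mem_toFinset] at hb
    exact if_neg hb)]
  rw [Finset.sum_congr rfl (fun b hb => by
    rw [Set.Finite.mem_toFinset] at hb
    exact if_pos hb : ∀ b ∈ hfin.toFinset, (if Ideal.absNorm b.1 ≤ n then x else 0) = x),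
    Finset.sum_const, nsmul_eq_mul]
  congr 2
  rw [← Set.ncard_eq_toFinset_card _ hfin]
  unfold cnt
  rw [← Set.ncard_image_of_injective _ (Subtype.val_injective (p := fun 𝔞 : Ideal (𝓞 K) => 𝔞 ≠ ⊥))]
  congr 1
  ext θ
  constructor
  · rintro ⟨𝔞, h, rfl⟩
    exact ⟨𝔞.2, h⟩
  · rintro ⟨h1, h2⟩
    exact ⟨⟨θ, h1⟩, h2, rfl⟩

lemma lint_one (N : ℕ) (hN : 1 ≤ N) {w : ℝ} (hw : 0 < w) :
    ∫⁻ u in Ioi (0 : ℝ), (if N ≤ ⌊Real.exp u⌋₊ then ENNReal.ofReal (Real.exp (-(w * u))) else 0) =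
      ENNReal.ofReal ((N : ℝ) ^ (-w) / w) := by
  have hN0 : (0 : ℝ) < N := by exact_mod_cast hN
  have hL0 : 0 ≤ Real.log N := Real.log_nonneg (by exact_mod_cast hN)
  have h1 : ∀ u : ℝ, (N ≤ ⌊Real.exp u⌋₊ ↔ u ∈ Ici (Real.log N)) := by
    intro u
    rw [Nat.le_floor_iff (Real.exp_pos u).le, Set.mem_Ici, Real.log_le_iff_le_exp hN0]
  have h2 : ∫⁻ u in Ioi (0 : ℝ), (if N ≤ ⌊Real.exp u⌋₊ then
      ENNReal.ofReal (Real.exp (-(w * u))) else 0) =
      ∫⁻ u in Ici (0 : ℝ), (Ici (Real.log N)).indicator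
        (fun u => ENNReal.ofReal (Real.exp (-(w * u)))) u := by
    rw [setLIntegral_congr Ioi_ae_eq_Ici]
    refine lintegral_congr fun u => ?_
    by_cases hu : u ∈ Ici (Real.log N)
    · rw [Set.indicator_of_mem hu, if_pos ((h1 u).2 hu)]
    · rw [Set.indicator_of_notMem hu, if_neg (fun h => hu ((h1 u).1 h))]
  rw [h2, lintegral_indicator measurableSet_Ici, Measure.restrict_restrict measurableSet_Ici,
    Set.inter_eq_left.2 (Set.Ici_subset_Ici.2 hL0), setLIntegral_congr Ioi_ae_eq_Ici.symm]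
  have hint : IntegrableOn (fun u => Real.exp (-w * u)) (Ioi (Real.log N)) :=
    exp_neg_integrableOn_Ioi _ hw
  have h3 : ∀ u : ℝ, Real.exp (-(w * u)) = Real.exp (-w * u) := fun u => by
    congr 1
    ring
  simp only [h3]
  rw [← ofReal_integral_eq_lintegral_ofReal hint
    (Eventually.of_forall fun u => (Real.exp_pos _).le), integral_exp_mul_Ioi (by linarith)]
  congr 1
  rw [Real.rpow_def_of_pos hN0]
  have : -w * Real.log N = Real.log N * -w := by ring
  rw [this, neg_div_neg_eq]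

/-- the Laplace transform of the counting function -/
lemma lap_cr {w : ℝ} (hw : 1 < w) :
    lap (st (cr K)) w = ∑' 𝔞 : NI K, (Ideal.absNorm 𝔞.1 : ℝ) ^ (-w) / w := by
  have hw0 : 0 < w := by linarith
  obtain ⟨C, hC⟩ := cr_bound (K := K)
  have hint := st_LInt hC hw
  have hnn : ∀ u, 0 ≤ st (cr K) u * Real.exp (-(w * u)) := fun u =>
    mul_nonneg (by unfold st cr; exact Nat.cast_nonneg _) (Real.exp_pos _).le
  unfold lap
  rw [integral_eq_lintegral_of_nonneg_ae (Eventually.of_forall hnn) hint.aestronglyMeasurable]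
  have h1 : ∫⁻ u in Ioi (0 : ℝ), ENNReal.ofReal (st (cr K) u * Real.exp (-(w * u))) =
      ∑' 𝔞 : NI K, ENNReal.ofReal ((Ideal.absNorm 𝔞.1 : ℝ) ^ (-w) / w) := by
    have h2 : ∀ u : ℝ, ENNReal.ofReal (st (cr K) u * Real.exp (-(w * u))) =
        ∑' 𝔞 : NI K, (if Ideal.absNorm 𝔞.1 ≤ ⌊Real.exp u⌋₊ then
          ENNReal.ofReal (Real.exp (-(w * u))) else 0) := by
      intro u
      rw [tsum_ind]
      unfold st cr
      rw [ENNReal.ofReal_mul (Nat.cast_nonneg _), ENNReal.ofReal_natCast]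
    simp only [h2]
    rw [lintegral_tsum]
    · exact tsum_congr fun 𝔞 => lint_one _ (norm_pos 𝔞) hw0
    · intro 𝔞
      refine Measurable.aemeasurable ?_
      refine Measurable.ite ?_ (by fun_prop) measurable_const
      exact measurableSet_le measurable_const (Nat.measurable_floor.comp Real.measurable_exp)
  rw [h1, ENNReal.tsum_toReal_eq (fun _ => ENNReal.ofReal_ne_top)]
  refine tsum_congr fun 𝔞 => ENNReal.toReal_ofReal ?_
  positivity

lemma LI_triv {w : ℝ} (hw : 1 < w) : LI (triv K) (w : ℂ) = ((w * lap (st (cr K)) w : ℝ) : ℂ) := by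
  have hw0 : w ≠ 0 := by linarith
  rw [lap_cr hw, ← tsum_mul_left, Complex.ofReal_tsum]
  unfold LI
  have h2 : Function.support (fun 𝔞 : Ideal (𝓞 K) => triv K 𝔞 *
      ((Ideal.absNorm 𝔞 : ℕ) : ℂ) ^ (-(w : ℂ))) ⊆ {𝔞 | 𝔞 ≠ ⊥} := by
    intro 𝔞 h
    rw [Function.mem_support] at h
    intro h0
    apply h
    rw [h0, ← Ideal.zero_eq_bot, map_zero, zero_mul]
  rw [← tsum_subtype_eq_of_support_subset h2]
  refine tsum_congr fun I => ?_
  rw [triv_apply I.2, one_mul]
  have h3 : w * ((Ideal.absNorm I.1 : ℝ) ^ (-w) / w) = (Ideal.absNorm I.1 : ℝ) ^ (-w) := by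
    field_simp
  rw [show w * ((Ideal.absNorm (I : Ideal (𝓞 K)) : ℝ) ^ (-w) / w) =
    (Ideal.absNorm (I : Ideal (𝓞 K)) : ℝ) ^ (-w) from h3]
  rw [Complex.ofReal_cpow (Nat.cast_nonneg _), Complex.ofReal_natCast, Complex.ofReal_neg]

/-! ### the entire function -/

/-- the factors at infinity -/
noncomputable def inf (K : Type) [Field K] [NumberField K] (R : ℝ) (s : ℂ) : ℂ :=
  (R : ℂ) ^ (-(s / 2)) * ∏ φ : K →+* ℂ, (Gammaℝ (s + (ex (fun _ : InfinitePlace K => 0) φ : ℕ)))⁻¹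

lemma inf_diff {R : ℝ} (hR : 1 ≤ R) : Differentiable ℂ (inf K R) := by
  have hR0 : (R : ℂ) ≠ 0 := by
    have : R ≠ 0 := by linarith
    exact_mod_cast this
  unfold inf
  refine Differentiable.mul ?_ ?_
  · intro s
    refine DifferentiableAt.const_cpow ?_ (Or.inl hR0)
    fun_prop
  · refine Differentiable.fun_finsetProd fun φ _ => ?_
    exact differentiable_Gammaℝ_inv.comp (by fun_prop)

lemma inf_zero (R : ℝ) : inf K R 0 = 0 := by
  unfold inf
  obtain ⟨w⟩ : Nonempty (InfinitePlace K) := inferInstance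
  have h : ex (fun _ : InfinitePlace K => 0) w.embedding = 0 := by
    unfold ex
    rw [InfinitePlace.mk_embedding]
    split_ifs with h1 h2
    · rfl
    · rfl
    · exact absurd rfl h2
  rw [Finset.prod_eq_zero (Finset.mem_univ w.embedding), mul_zero]
  rw [h, Nat.cast_zero, add_zero, inv_eq_zero, Gammaℝ_eq_zero_iff]
  exact ⟨0, by simp⟩

lemma inf_mul {R : ℝ} (hR : 1 ≤ R) {s : ℂ} (hs : 1 < s.re) :
    inf K R s * ((R : ℂ) ^ (s / 2) *
      ∏ φ : K →+* ℂ, Gammaℝ (s + (ex (fun _ : InfinitePlace K => 0) φ : ℕ))) = 1 := by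
  have hR0 : (R : ℂ) ≠ 0 := by
    have : R ≠ 0 := by linarith
    exact_mod_cast this
  unfold inf
  rw [mul_mul_mul_comm, ← Complex.cpow_add _ _ hR0, neg_add_cancel, Complex.cpow_zero, one_mul,
    ← Finset.prod_mul_distrib]
  refine Finset.prod_eq_one fun φ _ => ?_
  refine inv_mul_cancel₀ (Gammaℝ_ne_zero_of_re_pos ?_)
  rw [Complex.add_re, Complex.natCast_re]
  have : (0 : ℝ) ≤ (ex (fun _ : InfinitePlace K => 0) φ : ℕ) := Nat.cast_nonneg _
  linarith

lemma dslope_diff {f : ℂ → ℂ} (hf : Differentiable ℂ f) (c : ℂ) : Differentiable ℂ (dslope f c) := by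
  rw [← differentiableOn_univ] at hf ⊢
  exact (Complex.differentiableOn_dslope Filter.univ_mem).2 hf

/-- **The entire function**: for an entire function `D` with `D 0 = D 1 = 0`, the function
`ζ_K(s) D(s) / s` is entire. -/
theorem entire (K : Type) [Field K] [NumberField K] {D : ℂ → ℂ} (hD : Differentiable ℂ D)
    (h0 : D 0 = 0) (h1 : D 1 = 0) : ∃ G : ℂ → ℂ, Differentiable ℂ G ∧
      ∀ w : ℝ, 1 < w → G w = D w * ((lap (st (cr K)) w : ℝ) : ℂ) := by
  obtain ⟨X, hX⟩ := xi_unr (isUnr_triv (K := K)) (Or.inl rfl)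
  set R : ℝ := ((Ideal.absNorm (differentIdeal ℤ (𝓞 K)) : ℕ) : ℝ) with hR
  refine ⟨fun s => X s * dslope (inf K R) 0 s * dslope (dslope D 0) 1 s,
    (hX.diff.mul (dslope_diff (inf_diff hX.one_le) 0)).mul (dslope_diff (dslope_diff hD 0) 1), ?_⟩
  intro w hw
  have hw0 : (w : ℂ) ≠ 0 := by
    have : w ≠ 0 := by linarith
    exact_mod_cast this
  have hw1 : (w : ℂ) ≠ 1 := by
    have : w ≠ 1 := by linarith
    exact_mod_cast this
  have hw2 : (w : ℂ) - 1 ≠ 0 := sub_ne_zero.2 hw1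
  have hre : 1 < (w : ℂ).re := by simpa using hw
  have e1 := hX.eq (w : ℂ) hre
  have e2 := inf_mul (K := K) hX.one_le hre
  have e3 : dslope (inf K R) 0 (w : ℂ) = inf K R w / w := by
    rw [dslope_of_ne _ hw0, slope_def_field, inf_zero, sub_zero, sub_zero]
  have e4 : dslope D 0 (w : ℂ) = D w / w := by
    rw [dslope_of_ne _ hw0, slope_def_field, h0, sub_zero, sub_zero]
  have e5 : dslope D 0 1 = 0 := by
    rw [dslope_of_ne _ one_ne_zero, slope_def_field, h0, h1, sub_zero, zero_div]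
  have e6 : dslope (dslope D 0) 1 (w : ℂ) = D w / w / (w - 1) := by
    rw [dslope_of_ne _ hw1, slope_def_field, e5, e4, sub_zero]
  show X w * dslope (inf K R) 0 w * dslope (dslope D 0) 1 w = _
  rw [e1, e3, e6, LI_triv hw, pow_one]
  push_cast
  have e7 : ((w : ℂ) * (w - 1)) * ((R : ℂ) ^ ((w : ℂ) / 2) *
      ∏ φ : K →+* ℂ, Gammaℝ ((w : ℂ) + (ex (fun _ : InfinitePlace K => 0) φ : ℕ))) *
      ((w : ℂ) * ((lap (st (cr K)) w : ℝ) : ℂ)) * (inf K R w / w) * (D w / w / (w - 1)) =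
      (inf K R w * ((R : ℂ) ^ ((w : ℂ) / 2) *
      ∏ φ : K →+* ℂ, Gammaℝ ((w : ℂ) + (ex (fun _ : InfinitePlace K => 0) φ : ℕ)))) *
      (D w * ((lap (st (cr K)) w : ℝ) : ℂ)) := by
    field_simp
  rw [e7, e2, one_mul]

end ded

end Pool.Agent.W5h38.SC
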